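import Mathlib

/-!
Farkas' lemma over the rational numbers (Bartl's induction) and finite games.
-/

set_option autoImplicit false

namespace Pool.Agent.TH152.AC

/-- Algebraic Farkas lemma over `ℚ` (the proof is that of `H575R2.farkas_lin`). -/
theorem farkas_q {U : Type*} [AddCommGroup U] [Module ℚ U] :
    ∀ (m : ℕ) (ℓ : Fin m → (U →ₗ[ℚ] ℚ)) (f : U →ₗ[ℚ] ℚ),
      (∀ x, (∀ i, ℓ i x ≤ 0) → f x ≤ 0) →
      ∃ w : Fin m → ℚ, (∀ i, 0 ≤ w i) ∧ ∀ x, f x = ∑ i, w i * ℓ i x := by
  intro m
  induction m with
  | zero =>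
    intro ℓ f h
    refine ⟨fun i => 0, fun i => le_refl _, fun x => ?_⟩
    have h1 := h x (fun i => i.elim0)
    have h2 := h (-x) (fun i => i.elim0)
    rw [map_neg] at h2
    simp
    linarith
  | succ m ih =>
    intro ℓ f h
    by_cases hA : ∀ x, (∀ i : Fin m, ℓ i.castSucc x ≤ 0) → f x ≤ 0
    · obtain ⟨w, hw, hf⟩ := ih (fun i => ℓ i.castSucc) f hA
      refine ⟨Fin.snoc w 0, ?_, ?_⟩
      · intro i
        refine Fin.lastCases ?_ (fun j => ?_) i
        · simp
        · simpa using hw j
      · intro x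
        rw [Fin.sum_univ_castSucc]
        simp [hf x]
    · push Not at hA
      obtain ⟨x0, hx0, hfx0⟩ := hA
      have hlast : 0 < ℓ (Fin.last m) x0 := by
        by_contra hneg
        push Not at hneg
        have : f x0 ≤ 0 := h x0 (fun i => by
          refine Fin.lastCases ?_ (fun j => ?_) i
          · exact hneg
          · exact hx0 j)
        linarith
      set t : ℚ := ℓ (Fin.last m) x0 with ht
      obtain ⟨w, hw, hf⟩ := ih
        (fun i => ℓ i.castSucc - (ℓ i.castSucc x0 / t) • ℓ (Fin.last m))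
        (f - (f x0 / t) • ℓ (Fin.last m)) (by
          intro x hx
          have key : f (x - (ℓ (Fin.last m) x / t) • x0) ≤ 0 := by
            apply h
            intro i
            refine Fin.lastCases ?_ (fun j => ?_) i
            · rw [map_sub, map_smul, smul_eq_mul, ← ht, div_mul_cancel₀ _ hlast.ne', sub_self]
            · have := hx j
              simp only [LinearMap.sub_apply, LinearMap.smul_apply, smul_eq_mul] at this
              rw [map_sub, map_smul, smul_eq_mul]
              have e : ℓ (Fin.last m) x / t * ℓ j.castSucc x0 =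
                ℓ j.castSucc x0 / t * ℓ (Fin.last m) x := by ring
              rw [e]
              exact this
          rw [map_sub, map_smul, smul_eq_mul] at key
          simp only [LinearMap.sub_apply, LinearMap.smul_apply, smul_eq_mul]
          have e : ℓ (Fin.last m) x / t * f x0 = f x0 / t * ℓ (Fin.last m) x := by ring
          rw [e] at key
          exact key)
      refine ⟨Fin.snoc w (f x0 / t - ∑ i, w i * (ℓ i.castSucc x0 / t)), ?_, ?_⟩
      · intro i
        refine Fin.lastCases ?_ (fun j => ?_) i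
        · simp only [Fin.snoc_last]
          have h1 : 0 < f x0 / t := div_pos hfx0 hlast
          have h2 : ∑ i, w i * (ℓ i.castSucc x0 / t) ≤ 0 := by
            apply Finset.sum_nonpos
            intro i _
            apply mul_nonpos_of_nonneg_of_nonpos (hw i)
            exact div_nonpos_of_nonpos_of_nonneg (hx0 i) hlast.le
          linarith
        · simpa using hw j
      · intro x
        have hx := hf x
        simp only [LinearMap.sub_apply, LinearMap.smul_apply, smul_eq_mul] at hx
        rw [Fin.sum_univ_castSucc]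
        simp only [Fin.snoc_castSucc, Fin.snoc_last]
        have e : ∑ i, w i * (ℓ i.castSucc x - ℓ i.castSucc x0 / t * ℓ (Fin.last m) x)
            = ∑ i, w i * ℓ i.castSucc x - (∑ i, w i * (ℓ i.castSucc x0 / t)) * ℓ (Fin.last m) x := by
          rw [Finset.sum_mul, ← Finset.sum_sub_distrib]
          refine Finset.sum_congr rfl fun i _ => ?_
          ring
        rw [e] at hx
        linarith

/-- A finite game with integral payoff: if against each mixed strategy of the second player some
pure strategy of the first player has nonnegative payoff, then the first player has a rational mixed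
strategy with nonnegative payoff against each pure strategy of the second player. -/
theorem game {I J : Type*} [Fintype I] [Fintype J] (A : I → J → ℤ)
    (h : ∀ y : J → ℚ, (∀ j, 0 ≤ y j) → ∃ i, 0 ≤ ∑ j, y j * A i j) :
    ∃ p : I → ℕ, 0 < ∑ i, p i ∧ ∀ j, 0 ≤ ∑ i, (p i : ℤ) * A i j := by
  classical
  let e := Fintype.equivFin (J ⊕ I)
  let L : J ⊕ I → (((J → ℚ) × ℚ) →ₗ[ℚ] ℚ) := Sum.elim
    (fun j => -((LinearMap.proj j).comp (LinearMap.fst ℚ (J → ℚ) ℚ)))
    (fun i => (∑ j, (A i j : ℚ) • (LinearMap.proj j : (J → ℚ) →ₗ[ℚ] ℚ)).comp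
      (LinearMap.fst ℚ (J → ℚ) ℚ) + LinearMap.snd ℚ (J → ℚ) ℚ)
  have hL1 : ∀ j y t, L (Sum.inl j) (y, t) = - y j := by
    intro j y t
    simp [L]
  have hL2 : ∀ i y t, L (Sum.inr i) (y, t) = (∑ j, y j * A i j) + t := by
    intro i y t
    simp [L, mul_comm]
  obtain ⟨w, hw, hf⟩ := farkas_q (Fintype.card (J ⊕ I)) (fun k => L (e.symm k))
    (LinearMap.snd ℚ (J → ℚ) ℚ) (by
      rintro ⟨y, t⟩ hy
      have hy' : ∀ k, L k (y, t) ≤ 0 := fun k => by simpa using hy (e k)
      by_contra ht
      push Not at ht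
      have ht' : 0 < t := ht
      obtain ⟨i, hi⟩ := h y (fun j => by
        have := hy' (Sum.inl j)
        rw [hL1] at this
        linarith)
      have := hy' (Sum.inr i)
      rw [hL2] at this
      linarith)
  have hf' : ∀ (y : J → ℚ) (t : ℚ), t = (∑ j, w (e (Sum.inl j)) * (- y j)) +
      ∑ i, w (e (Sum.inr i)) * ((∑ j, y j * A i j) + t) := by
    intro y t
    have h1 := hf (y, t)
    rw [← Equiv.sum_comp e] at h1
    simp only [Equiv.symm_apply_apply, Fintype.sum_sum_type, hL1, hL2] at h1
    exact h1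
  have h1 : ∑ i, w (e (Sum.inr i)) = 1 := by
    have := hf' 0 1
    simpa using this.symm
  have h2 : ∀ j, 0 ≤ ∑ i, w (e (Sum.inr i)) * (A i j : ℚ) := by
    intro j
    have h3 := hf' (Pi.single j 1) 0
    have e1 : ∑ j', w (e (Sum.inl j')) * (- (Pi.single j (1 : ℚ) : J → ℚ) j') =
        - w (e (Sum.inl j)) := by
      rw [Finset.sum_eq_single j]
      · simp
      · intro j' _ hj'
        rw [Pi.single_eq_of_ne hj']
        simp
      · intro hj
        exact absurd (Finset.mem_univ _) hj
    have e2 : ∀ i, ∑ j', (Pi.single j (1 : ℚ) : J → ℚ) j' * (A i j' : ℚ) = A i j := by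
      intro i
      rw [Finset.sum_eq_single j]
      · simp
      · intro j' _ hj'
        rw [Pi.single_eq_of_ne hj', zero_mul]
      · intro hj
        exact absurd (Finset.mem_univ _) hj
    rw [e1] at h3
    simp only [e2, add_zero] at h3
    have := hw (e (Sum.inl j))
    linarith
  -- clear the denominators
  let dd : ℕ := ∏ i, (w (e (Sum.inr i))).den
  have hdd : 0 < dd := Finset.prod_pos fun i _ => (w (e (Sum.inr i))).den_pos
  have hint : ∀ i, ∃ m : ℕ, (m : ℚ) = w (e (Sum.inr i)) * dd := by
    intro i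
    obtain ⟨c, hc⟩ : (w (e (Sum.inr i))).den ∣ dd := Finset.dvd_prod_of_mem _ (Finset.mem_univ i)
    refine ⟨(w (e (Sum.inr i))).num.toNat * c, ?_⟩
    have hnum : 0 ≤ (w (e (Sum.inr i))).num := Rat.num_nonneg.2 (hw _)
    have e3 : (((w (e (Sum.inr i))).num.toNat : ℕ) : ℚ) = (w (e (Sum.inr i))).num := by
      have : (((w (e (Sum.inr i))).num.toNat : ℕ) : ℤ) = (w (e (Sum.inr i))).num :=
        Int.toNat_of_nonneg hnum
      exact_mod_cast congrArg (fun z : ℤ => (z : ℚ)) this
    rw [hc]
    push_cast
    rw [e3, ← mul_assoc, Rat.mul_den_eq_num]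
  choose p hp using hint
  refine ⟨p, ?_, fun j => ?_⟩
  · have h3 : ((∑ i, p i : ℕ) : ℚ) = dd := by
      push_cast
      rw [Finset.sum_congr rfl (fun i _ => hp i), ← Finset.sum_mul, h1, one_mul]
    have h4 : (∑ i, p i : ℕ) = dd := by exact_mod_cast h3
    rw [h4]
    exact hdd
  · have h3 : ((∑ i, (p i : ℤ) * A i j : ℤ) : ℚ) = (∑ i, w (e (Sum.inr i)) * (A i j : ℚ)) * dd := by
      push_cast
      rw [Finset.sum_mul]
      refine Finset.sum_congr rfl fun i _ => ?_
      rw [hp i]
      ring
    have h4 : (0 : ℚ) ≤ ((∑ i, (p i : ℤ) * A i j : ℤ) : ℚ) := by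
      rw [h3]
      exact mul_nonneg (h2 j) (by positivity)
    exact_mod_cast h4

end Pool.Agent.TH152.AC
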