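import Pool.Agent.TH152.AC.Cov

/-!
The final statements.
-/

set_option autoImplicit false

open FF IntermediateField Pool.Agent.W603.LV Pool.Agent.W602.GT Pool.Agent.W602.Cov
open Pool.Agent.W602.Cov.Cover Pool.Agent.W602.Cov.G MvPolynomial

namespace Pool.Agent.TH152.AC

variable {n q r : ℕ} {K : Type} [Field K] [Algebra ℂ K]

theorem lf_ne {x : Fin (n + 1) → K} (hx0 : x 0 ≠ 0)
    (hind : AlgebraicIndependent ℂ (fun j : Fin n => x j.succ / x 0)) {φ : Form n} (hφ : φ ≠ 0) :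
    lf φ x ≠ 0 := by
  classical
  intro h0
  apply hφ
  obtain ⟨p, hp⟩ : ∃ p : MvPolynomial (Fin n) ℂ, p = C (φ (Pi.single 0 1)) +
    ∑ j : Fin n, C (φ (Pi.single j.succ 1)) * X j := ⟨_, rfl⟩
  have h1 : aeval (fun j : Fin n => x j.succ / x 0) p = lf φ x / x 0 := by
    rw [hp]
    unfold lf
    rw [Fin.sum_univ_succ, add_div, map_add, map_sum, aeval_C, mul_div_assoc, div_self hx0,
      mul_one, Finset.sum_div]
    congr 1
    refine Finset.sum_congr rfl fun j _ => ?_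
    rw [map_mul, aeval_C, aeval_X, mul_div_assoc]
  rw [h0, zero_div] at h1
  have h2 : p = 0 := by
    have h3 := (injective_iff_map_eq_zero _).1 hind
    exact h3 p h1
  have hc0 : φ (Pi.single 0 1) = 0 := by
    have h3 := congrArg (coeff 0) h2
    rw [hp, coeff_add, coeff_sum] at h3
    simpa using h3
  have hcs : ∀ j : Fin n, φ (Pi.single j.succ 1) = 0 := by
    intro j
    have h3 := congrArg (coeff (Finsupp.single j 1)) h2
    rw [hp, coeff_add, coeff_sum, coeff_C, if_neg (by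
      intro h
      have := congrArg (fun f => f j) h
      simp at this), zero_add, Finset.sum_eq_single j] at h3
    · simpa using h3
    · intro j' _ hj'
      rw [coeff_C_mul, coeff_X, if_neg, mul_zero]
      intro h
      exact hj' (Finsupp.single_left_injective one_ne_zero h)
    · intro h
      exact absurd (Finset.mem_univ _) h
  apply LinearMap.pi_ext'
  intro j
  apply LinearMap.ext_ring
  refine Fin.cases ?_ (fun j => ?_) j
  · simpa using hc0
  · simpa using hcs j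

/-- the multiplicities of a cover -/
def Mult (X : Cover n q r) (m : ℕ) : Prop :=
  ∀ v : Fin q → ℕ, v ≠ 0 → (∃ x : Fin (n + 1) → ℂ, x ≠ 0 ∧ ∀ i, v i ≠ 0 → X.ℓ i x = 0) →
    (∀ k, X.m k ∣ ∑ i, X.e k i * v i) → ∃ i, m ≤ v i

theorem highAt_of_mult (X : Cover n q r) (hF : X.Free) {x : Fin (n + 1) → K} {y : Fin r → K}
    (hK : X.FunctionField K x y) {m : ℕ} (h : Mult X m) (P : Place ℂ K) : HighAt X.ℓ x m P := by
  intro a v hord hv hsp
  obtain ⟨h1, h2⟩ := compat X hF hK (coords X hK).1 P a v hord hsp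
  exact h v hv h1 h2

theorem tfae (hn : 1 ≤ n) (X : Cover n q r) (hF : X.Free) {x : Fin (n + 1) → K} {y : Fin r → K}
    (hK : X.FunctionField K x y) (h : Mult X (n + 2)) :
    [¬ KodGe ℂ K n (fun _ => False) 0, ¬ Psef ℂ K n (fun _ => False), Ruled ℂ K,
          Reducible X.ℓ].TFAE := by
  obtain ⟨h1, h2, h3⟩ := coords X hK
  tfae_have 4 → 3 := fun hr => ruled X hF hK hr
  tfae_have 3 → 2 := fun hr => not_psef_of_ruled (trdeg_of_basis h3) hr
  tfae_have 2 → 1 := fun hp hk => hp (psef_of_kodGe hk)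
  tfae_have 1 → 4 := fun hk => by
    by_contra hr
    exact hk (kodGe_zero hn X.hℓ hr h1 h2 h3 _ fun P _ _ => highAt_of_mult X hF hK h P)
  tfae_finish

theorem dichotomy (hn : 1 ≤ n) (X : Cover n q r) (hF : X.Free) {x : Fin (n + 1) → K}
    {y : Fin r → K} (hK : X.FunctionField K x y) (h : Mult X (n + 3)) :
    (Reducible X.ℓ ∧ Ruled ℂ K ∧ ¬ GeneralType ℂ K n) ∨
          (¬ Reducible X.ℓ ∧ ¬ Ruled ℂ K ∧ GeneralType ℂ K n) := by
  obtain ⟨h1, h2, h3⟩ := coords X hK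
  have hno : Ruled ℂ K → ¬ GeneralType ℂ K n := fun hr hg =>
    not_psef_of_ruled (trdeg_of_basis h3) hr (psef_of_kodGe (kod_of_general hg))
  by_cases hr : Reducible X.ℓ
  · exact Or.inl ⟨hr, ruled X hF hK hr, hno (ruled X hF hK hr)⟩
  · have hg : GeneralType ℂ K n := general_of_log
      (logGeneral hn X.hℓ hr h1 h2 h3 _ fun P _ _ => highAt_of_mult X hF hK h P)
    exact Or.inr ⟨hr, fun hr => hno hr hg, hg⟩

/-- the multiplicities over the arrangement of a variety over projective space -/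
def MultOver (ℓ : Fin q → Form n) (x : Fin (n + 1) → K) (m : ℕ) : Prop :=
  ∀ P : Place ℂ K, Divisorial n P → ∀ (a : ℤ) (v : Fin q → ℕ),
    (∀ φ : Form n, lf φ x = 0 ∨ a ≤ P.ord (lf φ x)) →
    (∃ φ : Form n, lf φ x ≠ 0 ∧ P.ord (lf φ x) = a) →
    (∀ i, P.ord (lf (ℓ i) x) = a + v i) → v ≠ 0 → ∃ i, m ≤ v i

theorem highAt_of_multOver {ℓ : Fin q → Form n} (hspan : Submodule.span ℂ (Set.range ℓ) = ⊤)
    {x : Fin (n + 1) → K} (hlx : ∀ i, lf (ℓ i) x ≠ 0) {m : ℕ} (h : MultOver ℓ x m)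
    {P : Place ℂ K} (hP : Divisorial n P) : HighAt ℓ x m P := by
  intro a v hord hv hsp
  obtain ⟨i, hi⟩ : ∃ i, v i = 0 := by
    by_contra hcon
    push Not at hcon
    apply hsp
    rw [← hspan]
    congr 1
    ext φ
    constructor
    · rintro ⟨i, -, rfl⟩
      exact ⟨i, rfl⟩
    · rintro ⟨i, rfl⟩
      exact ⟨i, hcon i, rfl⟩
  refine h P hP a v (fun φ => ?_) ⟨ℓ i, hlx i, ?_⟩ hord hv
  · refine Pool.Agent.W168.CG.PGR.ge_span P a (Set.range ℓ) x ?_ φ (by rw [hspan]; trivial)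
    rintro _ ⟨i, rfl⟩
    right
    rw [hord i]
    have : (0 : ℤ) ≤ v i := by positivity
    linarith
  · rw [hord i, hi]
    simp

theorem over_kodGe (hn : 1 ≤ n) {ℓ : Fin q → Form n} (hℓ : ∀ i, ℓ i ≠ 0) (hr : ¬ Reducible ℓ)
    {x : Fin (n + 1) → K} (hx0 : x 0 ≠ 0)
    (hbas : IsTranscendenceBasis ℂ (fun j : Fin n => x j.succ / x 0))
    (h : MultOver ℓ x (n + 2)) : KodGe ℂ K n (fun _ => False) 0 :=
  kodGe_zero hn hℓ hr (fun i => lf_ne hx0 hbas.1 (hℓ i)) hx0 hbas _ fun _ hP _ =>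
    highAt_of_multOver (Pool.Agent.W392.CG.span_top hn ℓ hr)
      (fun i => lf_ne hx0 hbas.1 (hℓ i)) h hP

theorem over_general (hn : 1 ≤ n) {ℓ : Fin q → Form n} (hℓ : ∀ i, ℓ i ≠ 0) (hr : ¬ Reducible ℓ)
    {x : Fin (n + 1) → K} (hx0 : x 0 ≠ 0)
    (hbas : IsTranscendenceBasis ℂ (fun j : Fin n => x j.succ / x 0))
    (h : MultOver ℓ x (n + 3)) : GeneralType ℂ K n :=
  general_of_log <| logGeneral hn hℓ hr (fun i => lf_ne hx0 hbas.1 (hℓ i)) hx0 hbas _
    fun _ hP _ => highAt_of_multOver (Pool.Agent.W392.CG.span_top hn ℓ hr)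
      (fun i => lf_ne hx0 hbas.1 (hℓ i)) h hP

end Pool.Agent.TH152.AC
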