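import Pool.Agent.TH152.AC.Farkas
import Pool.Agent.W392.CG.Col

/-!
A sharp inequality for the bases of an arrangement which is not reducible.
-/

set_option autoImplicit false

open Pool.Agent.W602.Cov Module

namespace Pool.Agent.TH152.AC

variable {n q : ℕ}

/-- a system of exchanges on the subset `U` -/
structure Good (ℓ : Fin q → Form n) (b : Basis (Fin (n + 1)) ℂ (Form n)) (B : Fin (n + 1) → Fin q)
    (U : Finset (Fin (n + 1))) (T : Finset (Fin (n + 1) × Fin q)) : Prop where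
  ne : U.Nonempty
  mem : ∀ p ∈ T, b.repr (ℓ p.2) p.1 ≠ 0
  sub : ∀ p ∈ T, ∀ a, b.repr (ℓ p.2) a ≠ 0 → a ∈ U
  neg : ∀ F : Finset (Fin q), ∃ (j : ℕ) (W : Submodule ℂ (Form n)),
    W ≤ Submodule.span ℂ (ℓ '' (F : Set (Fin q))) ∧
    (∀ φ ∈ W, ∀ a, B a ∉ F → a ∉ U → b.repr φ a = 0) ∧
    (Finset.univ.filter fun a => B a ∈ F).card + j ≤ finrank ℂ W ∧
    (T.filter fun p => B p.1 ∉ F ∧ p.2 ∈ F).card + 1 ≤ U.card + j
  pos : ∀ F : Finset (Fin q), (∀ i ∈ F, ∀ a, b.repr (ℓ i) a ≠ 0 → B a ∈ F) →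
    (∃ a ∈ U, B a ∈ F) → (∃ a ∈ U, B a ∉ F) → ∃ p ∈ T, B p.1 ∈ F ∧ p.2 ∉ F

variable {ℓ : Fin q → Form n} {b : Basis (Fin (n + 1)) ℂ (Form n)} {B : Fin (n + 1) → Fin q}

theorem finrank_part (_hb : ∀ a, b a = ℓ (B a)) (F : Finset (Fin q)) :
    finrank ℂ (Submodule.span ℂ (b '' {a | B a ∈ F})) =
      (Finset.univ.filter fun a => B a ∈ F).card := by
  have h1 : LinearIndependent ℂ (fun a : {a // B a ∈ F} => b a.1) :=
    b.linearIndependent.comp Subtype.val Subtype.val_injective
  have h2 := finrank_span_eq_card h1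
  have h3 : Set.range (fun a : {a // B a ∈ F} => b a.1) = b '' {a | B a ∈ F} := by
    ext φ
    simp
  rw [h3] at h2
  rw [h2, Fintype.card_subtype]

theorem good_init (hb : ∀ a, b a = ℓ (B a)) (a0 : Fin (n + 1)) : Good ℓ b B {a0} ∅ := by
  refine ⟨⟨a0, Finset.mem_singleton_self _⟩, fun p hp => absurd hp (Finset.notMem_empty p),
    fun p hp => absurd hp (Finset.notMem_empty p), fun F => ⟨0, Submodule.span ℂ
      (b '' {a | B a ∈ F}), ?_, ?_, ?_, ?_⟩, ?_⟩
  · rw [Submodule.span_le]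
    rintro _ ⟨a, ha, rfl⟩
    rw [hb a]
    exact Submodule.subset_span ⟨B a, ha, rfl⟩
  · intro φ hφ a ha _
    rw [b.mem_span_image] at hφ
    by_contra hne
    exact ha (hφ (Finsupp.mem_support_iff.2 hne))
  · rw [finrank_part hb]
    omega
  · simp
  · rintro F - ⟨a, ha, h1⟩ ⟨a', ha', h2⟩
    rw [Finset.mem_singleton] at ha ha'
    subst ha
    subst ha'
    exact absurd h1 h2

theorem good_step (_hb : ∀ a, b a = ℓ (B a)) (hr : ¬ Reducible ℓ) {U : Finset (Fin (n + 1))}
    {T : Finset (Fin (n + 1) × Fin q)} (h : Good ℓ b B U T) (hU : U ≠ Finset.univ) :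
    ∃ (U' : Finset (Fin (n + 1))) (T' : Finset (Fin (n + 1) × Fin q)), Good ℓ b B U' T' ∧
      U.card < U'.card := by
  classical
  obtain ⟨f, ⟨a0, ha0U, ha0⟩, a1, ha1U, ha1⟩ := Pool.Agent.W392.CG.cross ℓ b hr
    (U : Set (Fin (n + 1))) (by exact_mod_cast h.ne) (by
      rw [Set.nonempty_compl]
      intro hc
      apply hU
      ext a
      have : a ∈ (U : Set (Fin (n + 1))) := by rw [hc]; trivial
      simpa using this)
  have ha0U' : a0 ∈ U := by simpa using ha0U
  have ha1U' : a1 ∉ U := by simpa using ha1U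
  set N : Finset (Fin (n + 1)) :=
    Finset.univ.filter (fun a => a ∉ U ∧ b.repr (ℓ f) a ≠ 0) with hN
  have hNmem : ∀ a, a ∈ N ↔ a ∉ U ∧ b.repr (ℓ f) a ≠ 0 := by
    intro a
    rw [hN, Finset.mem_filter]
    simp
  have ha1N : a1 ∈ N := (hNmem a1).2 ⟨ha1U', ha1⟩
  have hdisj : Disjoint U N := by
    rw [Finset.disjoint_left]
    intro a ha ha'
    exact ((hNmem a).1 ha').1 ha
  have ha0N : a0 ∉ N := fun h => ((hNmem a0).1 h).1 ha0U'
  have hsuppU : ∀ a, b.repr (ℓ f) a ≠ 0 → a ∈ U ∪ N := by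
    intro a ha
    by_cases haU : a ∈ U
    · exact Finset.mem_union_left _ haU
    · exact Finset.mem_union_right _ ((hNmem a).2 ⟨haU, ha⟩)
  set E : Finset (Fin (n + 1) × Fin q) := (insert a0 N).image (fun a => (a, f)) with hE
  have hEmem : ∀ p : Fin (n + 1) × Fin q, p ∈ E ↔ (p.1 = a0 ∨ p.1 ∈ N) ∧ p.2 = f := by
    intro p
    rw [hE, Finset.mem_image]
    constructor
    · rintro ⟨a, ha, rfl⟩
      exact ⟨Finset.mem_insert.1 ha, rfl⟩
    · rintro ⟨h1, h2⟩
      exact ⟨p.1, Finset.mem_insert.2 h1, by rw [← h2]⟩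
  have hEsupp : ∀ p ∈ E, b.repr (ℓ p.2) p.1 ≠ 0 := by
    intro p hp
    obtain ⟨h1, h2⟩ := (hEmem p).1 hp
    rw [h2]
    rcases h1 with h1 | h1
    · rw [h1]
      exact ha0
    · exact ((hNmem _).1 h1).2
  have hcardU : (U ∪ N).card = U.card + N.card := Finset.card_union_of_disjoint hdisj
  have hNpos : 1 ≤ N.card := Finset.card_pos.2 ⟨a1, ha1N⟩
  refine ⟨U ∪ N, T ∪ E, ⟨?_, ?_, ?_, ?_, ?_⟩, by omega⟩
  · exact h.ne.mono Finset.subset_union_left
  · intro p hp
    rcases Finset.mem_union.1 hp with hp | hp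
    · exact h.mem p hp
    · exact hEsupp p hp
  · intro p hp a ha
    rcases Finset.mem_union.1 hp with hp | hp
    · exact Finset.mem_union_left _ (h.sub p hp a ha)
    · rw [((hEmem p).1 hp).2] at ha
      exact hsuppU a ha
  · intro F
    obtain ⟨j, W, hW1, hW2, hW3, hW4⟩ := h.neg F
    have hcount : ((T ∪ E).filter fun p => B p.1 ∉ F ∧ p.2 ∈ F).card ≤
        (T.filter fun p => B p.1 ∉ F ∧ p.2 ∈ F).card +
          (E.filter fun p => B p.1 ∉ F ∧ p.2 ∈ F).card := by
      rw [Finset.filter_union]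
      exact Finset.card_union_le _ _
    have hEcard : E.card = N.card + 1 := by
      rw [hE, Finset.card_image_of_injective _ (fun a a' haa => (Prod.mk.inj haa).1),
        Finset.card_insert_of_notMem ha0N]
    by_cases hfF : f ∈ F
    · by_cases hall : ∀ a ∈ N, B a ∈ F
      · -- only the anchor can contribute
        have hE1 : (E.filter fun p => B p.1 ∉ F ∧ p.2 ∈ F).card ≤ 1 := by
          rw [Finset.card_le_one]
          intro p hp p' hp'
          rw [Finset.mem_filter] at hp hp'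
          obtain ⟨h1, h2⟩ := (hEmem p).1 hp.1
          obtain ⟨h1', h2'⟩ := (hEmem p').1 hp'.1
          have e1 : p.1 = a0 := by
            rcases h1 with h1 | h1
            · exact h1
            · exact absurd (hall _ h1) hp.2.1
          have e2 : p'.1 = a0 := by
            rcases h1' with h1 | h1
            · exact h1
            · exact absurd (hall _ h1) hp'.2.1
          exact Prod.ext (e1.trans e2.symm) (h2.trans h2'.symm)
        refine ⟨j, W, hW1, ?_, hW3, by omega⟩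
        intro φ hφ a ha haU
        exact hW2 φ hφ a ha (fun h => haU (Finset.mem_union_left _ h))
      · push Not at hall
        obtain ⟨a2, ha2N, ha2F⟩ := hall
        have hE1 : (E.filter fun p => B p.1 ∉ F ∧ p.2 ∈ F).card ≤ N.card + 1 :=
          hEcard ▸ Finset.card_filter_le _ _
        have hnotin : ℓ f ∉ W := by
          intro hfW
          have h1 := hW2 _ hfW a2 ha2F ((hNmem a2).1 ha2N).1
          exact ((hNmem a2).1 ha2N).2 h1
        have hlt : W < W ⊔ Submodule.span ℂ {ℓ f} := by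
          refine lt_of_le_of_ne le_sup_left fun he => hnotin ?_
          rw [he]
          exact (le_sup_right : Submodule.span ℂ {ℓ f} ≤ _)
            (Submodule.mem_span_singleton_self _)
        have hfin := Submodule.finrank_lt_finrank_of_lt hlt
        refine ⟨j + 1, W ⊔ Submodule.span ℂ {ℓ f}, ?_, ?_, by omega, by omega⟩
        · refine sup_le hW1 ?_
          rw [Submodule.span_singleton_le_iff_mem]
          exact Submodule.subset_span ⟨f, hfF, rfl⟩
        · intro φ hφ a ha haU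
          obtain ⟨φ1, hφ1, φ2, hφ2, rfl⟩ := Submodule.mem_sup.1 hφ
          obtain ⟨c, rfl⟩ := Submodule.mem_span_singleton.1 hφ2
          have e1 := hW2 φ1 hφ1 a ha (fun h => haU (Finset.mem_union_left _ h))
          have e2 : b.repr (ℓ f) a = 0 := by
            by_contra hne
            exact haU (hsuppU a hne)
          rw [map_add, map_smul, Finsupp.add_apply, Finsupp.smul_apply, e1, e2, smul_zero,
            add_zero]
    · have hE0 : (E.filter fun p => B p.1 ∉ F ∧ p.2 ∈ F).card = 0 := by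
        rw [Finset.card_eq_zero, Finset.filter_eq_empty_iff]
        intro p hp hp2
        rw [((hEmem p).1 hp).2] at hp2
        exact hfF hp2.2
      refine ⟨j, W, hW1, ?_, hW3, by omega⟩
      intro φ hφ a ha haU
      exact hW2 φ hφ a ha (fun h => haU (Finset.mem_union_left _ h))
  · rintro F hF ⟨a, haU, haF⟩ ⟨a', haU', haF'⟩
    by_cases h1 : ∃ a ∈ U, B a ∈ F
    · by_cases h2 : ∃ a ∈ U, B a ∉ F
      · obtain ⟨p, hp, hp2⟩ := h.pos F hF h1 h2
        exact ⟨p, Finset.mem_union_left _ hp, hp2⟩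
      · push Not at h2
        have ha'N : a' ∈ N := by
          rcases Finset.mem_union.1 haU' with h3 | h3
          · exact absurd (h2 a' h3) haF'
          · exact h3
        refine ⟨(a0, f), Finset.mem_union_right _ ((hEmem _).2 ⟨Or.inl rfl, rfl⟩), h2 a0 ha0U',
          fun hfF => haF' (hF f hfF a' ((hNmem a').1 ha'N).2)⟩
    · push Not at h1
      have haN : a ∈ N := by
        rcases Finset.mem_union.1 haU with h3 | h3
        · exact absurd haF (h1 a h3)
        · exact h3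
      exact ⟨(a, f), Finset.mem_union_right _ ((hEmem _).2 ⟨Or.inr haN, rfl⟩), haF,
        fun hfF => h1 a0 ha0U' (hF f hfF a0 ha0)⟩

theorem good_univ (hb : ∀ a, b a = ℓ (B a)) (hr : ¬ Reducible ℓ) :
    ∃ T : Finset (Fin (n + 1) × Fin q), Good ℓ b B Finset.univ T := by
  have key : ∀ k : ℕ, k ≤ n → ∃ (U : Finset (Fin (n + 1))) (T : Finset (Fin (n + 1) × Fin q)),
      Good ℓ b B U T ∧ k + 1 ≤ U.card := by
    intro k
    induction k with
    | zero => exact fun _ => ⟨{0}, ∅, good_init hb 0, by simp⟩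
    | succ k ih =>
      intro hk
      obtain ⟨U, T, hG, hc⟩ := ih (by omega)
      by_cases hU : U = Finset.univ
      · refine ⟨U, T, hG, ?_⟩
        rw [hU, Finset.card_univ, Fintype.card_fin]
        omega
      · obtain ⟨U', T', hG', hc'⟩ := good_step hb hr hG hU
        exact ⟨U', T', hG', by omega⟩
  obtain ⟨U, T, hG, hc⟩ := key n le_rfl
  have hU : U = Finset.univ := by
    apply Finset.eq_univ_of_card
    have h1 := Finset.card_le_univ U
    rw [Fintype.card_fin] at h1 ⊢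
    omega
  exact ⟨T, hU ▸ hG⟩

/-- the sets of hyperplanes with a common point -/
def Proper (ℓ : Fin q → Form n) (F : Finset (Fin q)) : Prop :=
  F.Nonempty ∧ Submodule.span ℂ (ℓ '' (F : Set (Fin q))) ≠ ⊤

/-- **The exchange inequality.** -/
theorem exchange (hb : ∀ a, b a = ℓ (B a)) (hℓ : ∀ i, ℓ i ≠ 0) (hr : ¬ Reducible ℓ) :
    ∃ T : Finset (Fin (n + 1) × Fin q), (∀ p ∈ T, b.repr (ℓ p.2) p.1 ≠ 0) ∧
      ∀ F : Finset (Fin q), Proper ℓ F →
        1 - ((n : ℤ) + 2) * (finrank ℂ (Submodule.span ℂ (ℓ '' (F : Set (Fin q)))) -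
          (Finset.univ.filter fun a => B a ∈ F).card) ≤
        ∑ p ∈ T, ((if B p.1 ∈ F then 1 else 0) - (if p.2 ∈ F then 1 else 0)) := by
  classical
  obtain ⟨T, hT⟩ := good_univ hb hr
  refine ⟨T, hT.mem, fun F hF => ?_⟩
  obtain ⟨j, W, hW1, hW2, hW3, hW4⟩ := hT.neg F
  rw [Finset.card_univ, Fintype.card_fin] at hW4
  have hWle := Submodule.finrank_mono hW1
  have hsum : ∑ p ∈ T, (((if B p.1 ∈ F then 1 else 0) : ℤ) - (if p.2 ∈ F then 1 else 0)) =
      ((T.filter fun p => B p.1 ∈ F ∧ p.2 ∉ F).card : ℤ) -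
        (T.filter fun p => B p.1 ∉ F ∧ p.2 ∈ F).card := by
    rw [Finset.card_filter, Finset.card_filter]
    push_cast
    rw [← Finset.sum_sub_distrib]
    refine Finset.sum_congr rfl fun p _ => ?_
    by_cases h1 : B p.1 ∈ F <;> by_cases h2 : p.2 ∈ F <;> simp [h1, h2]
  rw [hsum]
  set R := finrank ℂ (Submodule.span ℂ (ℓ '' (F : Set (Fin q)))) with hR
  set c := (Finset.univ.filter fun a => B a ∈ F).card with hc
  by_cases hdef : R = c
  · -- no deficiency
    have hspan : Submodule.span ℂ (b '' {a | B a ∈ F}) =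
        Submodule.span ℂ (ℓ '' (F : Set (Fin q))) := by
      apply Submodule.eq_of_le_of_finrank_eq
      · rw [Submodule.span_le]
        rintro _ ⟨a, ha, rfl⟩
        rw [hb a]
        exact Submodule.subset_span ⟨B a, ha, rfl⟩
      · rw [finrank_part hb, ← hR, hdef]
    have hFs : ∀ i ∈ F, ∀ a, b.repr (ℓ i) a ≠ 0 → B a ∈ F := by
      intro i hi a ha
      have h1 : ℓ i ∈ Submodule.span ℂ (b '' {a | B a ∈ F}) := by
        rw [hspan]
        exact Submodule.subset_span ⟨i, hi, rfl⟩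
      rw [b.mem_span_image] at h1
      exact h1 (Finsupp.mem_support_iff.2 ha)
    obtain ⟨i0, hi0⟩ := hF.1
    have hin : ∃ a ∈ Finset.univ, B a ∈ F := by
      by_contra hcon
      push Not at hcon
      apply hℓ i0
      have h1 : b.repr (ℓ i0) = 0 := by
        ext a
        by_contra hne
        exact hcon a (Finset.mem_univ a) (hFs i0 hi0 a hne)
      exact (LinearEquiv.map_eq_zero_iff _).1 h1
    have hout : ∃ a ∈ Finset.univ, B a ∉ F := by
      by_contra hcon
      push Not at hcon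
      apply hF.2
      rw [← hspan, eq_top_iff, ← b.span_eq, Submodule.span_le]
      rintro _ ⟨a, rfl⟩
      exact Submodule.subset_span ⟨a, hcon a (Finset.mem_univ a), rfl⟩
    obtain ⟨p, hp, hp1, hp2⟩ := hT.pos F hFs hin hout
    have hpos : 1 ≤ (T.filter fun p => B p.1 ∈ F ∧ p.2 ∉ F).card :=
      Finset.card_pos.2 ⟨p, Finset.mem_filter.2 ⟨hp, hp1, hp2⟩⟩
    have hneg : (T.filter fun p => B p.1 ∉ F ∧ p.2 ∈ F).card = 0 := by
      rw [Finset.card_eq_zero, Finset.filter_eq_empty_iff]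
      rintro p' hp' ⟨h1, h2⟩
      exact h1 (hFs _ h2 _ (hT.mem p' hp'))
    rw [hdef, hneg]
    push_cast
    have : (1 : ℤ) ≤ ((T.filter fun p => B p.1 ∈ F ∧ p.2 ∉ F).card : ℤ) := by exact_mod_cast hpos
    linarith
  · have h1 : c + j ≤ R := by omega
    have h2 : c + 1 ≤ R := by omega
    have h3 : ((T.filter fun p => B p.1 ∉ F ∧ p.2 ∈ F).card : ℤ) ≤ n + j := by
      have : (T.filter fun p => B p.1 ∉ F ∧ p.2 ∈ F).card ≤ n + j := by omega
      exact_mod_cast this
    have h4 : (j : ℤ) ≤ (R : ℤ) - c := by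
      have : (c : ℤ) + j ≤ R := by exact_mod_cast h1
      linarith
    have h5 : (1 : ℤ) ≤ (R : ℤ) - c := by
      have : (c : ℤ) + 1 ≤ R := by exact_mod_cast h2
      linarith
    have h6 : (0 : ℤ) ≤ ((T.filter fun p => B p.1 ∈ F ∧ p.2 ∉ F).card : ℤ) := by positivity
    have h7 : (0 : ℤ) ≤ (n : ℤ) * (((R : ℤ) - c) - 1) :=
      mul_nonneg (by positivity) (by linarith)
    nlinarith

end Pool.Agent.TH152.AC
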