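import Pool.Agent.TH152.AC.Gen
import Pool.Agent.W602.Cov.GAll
import Pool.Agent.W602.GT.KGen

/-!
Abelian covers of projective space: multiplicities at the places, and ruledness for reducible
arrangements.
-/

set_option autoImplicit false

open FF IntermediateField Pool.Agent.W603.LV Pool.Agent.W602.GT Pool.Agent.W602.Cov
open Pool.Agent.W602.Cov.Cover Pool.Agent.W602.Cov.G

namespace Pool.Agent.TH152.AC

variable {n q r : ℕ}

/-- The multiplicities of the hyperplanes at the places of the function field of a free cover are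
compatible with the equations (the proof is that of `Pool.Agent.W33.CG.FRE.main`). -/
theorem compat (X : Cover n q r) (hfree : X.Free) {K : Type} [Field K] [Algebra ℂ K]
    {x : Fin (n + 1) → K} {y : Fin r → K} (hK : X.FunctionField K x y)
    (hne : ∀ i, lf (X.ℓ i) x ≠ 0) (P : Place ℂ K) (a : ℤ) (v : Fin q → ℕ)
    (hord : ∀ i, P.ord (lf (X.ℓ i) x) = a + v i)
    (hspan : Submodule.span ℂ (X.ℓ '' {i | v i ≠ 0}) ≠ ⊤) :
    (∃ x : Fin (n + 1) → ℂ, x ≠ 0 ∧ ∀ i, v i ≠ 0 → X.ℓ i x = 0) ∧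
      ∀ k, X.m k ∣ ∑ i, X.e k i * v i := by
  obtain ⟨xb, hxb0, hxb⟩ := Pool.Agent.W33.CG.FRE.exists_common X.ℓ {i | v i ≠ 0} hspan
  have hd0 : (X.d : ℤ) ≠ 0 := by exact_mod_cast X.hd.ne'
  have key : ∀ k, (X.d : ℤ) * ∑ i, (X.e k i : ℤ) * (v i : ℤ) =
      (X.m k : ℤ) * ((X.d : ℤ) * P.ord (y k) - a * (X.w k : ℤ)) := by
    intro k
    have h1 := Pool.Agent.W337.CG.main n q r X K x y hK k
    have h2 := congrArg P.ord h1
    rw [P.ord_pow, ord_prod' P Finset.univ _ (fun i _ => pow_ne_zero _ (hne i))] at h2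
    have h3 : ∀ i, P.ord (lf (X.ℓ i) x ^ X.e k i) = (X.e k i : ℤ) * (a + (v i : ℤ)) := by
      intro i
      rw [P.ord_pow, hord i]
    rw [Finset.sum_congr rfl (fun i _ => h3 i)] at h2
    have h4 : ∑ i, (X.e k i : ℤ) * (a + (v i : ℤ)) =
        a * ∑ i, (X.e k i : ℤ) + ∑ i, (X.e k i : ℤ) * (v i : ℤ) := by
      rw [Finset.mul_sum, ← Finset.sum_add_distrib]
      apply Finset.sum_congr rfl
      intro i _
      ring
    have h5 : (X.m k : ℤ) * (X.w k : ℤ) = (X.d : ℤ) * ∑ i, (X.e k i : ℤ) := by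
      exact_mod_cast X.hom k
    rw [h4] at h2
    linear_combination (-(X.d : ℤ)) * h2 + a * h5
  have hda : (X.d : ℤ) ∣ a := by
    by_contra hnd
    set z : ℂ := Complex.exp ((2 * (Real.pi : ℂ) * Complex.I) * ((a : ℂ) / (X.d : ℂ))) with hz
    have hdC : (X.d : ℂ) ≠ 0 := by exact_mod_cast X.hd.ne'
    have hzd : z ^ X.d = 1 := by
      rw [hz, ← Complex.exp_nat_mul, Complex.exp_eq_one_iff]
      refine ⟨a, ?_⟩
      have h3 : (X.d : ℂ) * ((2 * (Real.pi : ℂ) * Complex.I) * ((a : ℂ) / (X.d : ℂ))) =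
          (2 * (Real.pi : ℂ) * Complex.I) * ((X.d : ℂ) * ((a : ℂ) / (X.d : ℂ))) := by ring
      rw [h3, mul_div_cancel₀ _ hdC]
      ring
    have hz1 : z ≠ 1 := by
      intro h1
      rw [hz, Complex.exp_eq_one_iff] at h1
      obtain ⟨N, hN⟩ := h1
      apply hnd
      refine ⟨N, ?_⟩
      have h2 : (a : ℂ) = (X.d : ℂ) * (N : ℂ) := by
        have hpi : (2 * (Real.pi : ℂ) * Complex.I) ≠ 0 := Complex.two_pi_I_ne_zero
        have h3 : (2 * (Real.pi : ℂ) * Complex.I) * ((a : ℂ) / (X.d : ℂ)) =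
            (2 * (Real.pi : ℂ) * Complex.I) * (N : ℂ) := by
          rw [hN]
          ring
        have h4 := mul_left_cancel₀ hpi h3
        rw [div_eq_iff hdC] at h4
        rw [h4]
        ring
      exact_mod_cast h2
    have hzw : ∀ k, (X.d : ℤ) ∣ a * (X.w k : ℤ) → z ^ X.w k = 1 := by
      rintro k ⟨N, hN⟩
      rw [hz, ← Complex.exp_nat_mul, Complex.exp_eq_one_iff]
      refine ⟨N, ?_⟩
      have h2 : (a : ℂ) * (X.w k : ℂ) = (X.d : ℂ) * (N : ℂ) := by exact_mod_cast hN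
      have h3 : (X.w k : ℂ) * ((2 * (Real.pi : ℂ) * Complex.I) * ((a : ℂ) / (X.d : ℂ))) =
          (2 * (Real.pi : ℂ) * Complex.I) * (((a : ℂ) * (X.w k : ℂ)) / (X.d : ℂ)) := by ring
      rw [h3, h2, mul_div_cancel_left₀ _ hdC]
      ring
    have hyb : ∀ k, ∃ t : ℂ, t ^ X.m k = ∏ i, X.ℓ i xb ^ X.e k i ∧ z ^ X.w k * t = t := by
      intro k
      by_cases hk : (X.d : ℤ) ∣ a * (X.w k : ℤ)
      · obtain ⟨t, ht⟩ := IsAlgClosed.exists_pow_nat_eq (∏ i, X.ℓ i xb ^ X.e k i) (X.hm k)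
        exact ⟨t, ht, by rw [hzw k hk, one_mul]⟩
      · have hsum : ∑ i, (X.e k i : ℤ) * (v i : ℤ) ≠ 0 := by
          intro h0
          have hk' := key k
          rw [h0, mul_zero] at hk'
          have hm0 : (X.m k : ℤ) ≠ 0 := by exact_mod_cast (X.hm k).ne'
          have h6 := (mul_eq_zero.mp hk'.symm).resolve_left hm0
          apply hk
          exact ⟨P.ord (y k), by linarith⟩
        obtain ⟨i, _, hi⟩ := Finset.exists_ne_zero_of_sum_ne_zero hsum
        have hei : X.e k i ≠ 0 := by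
          intro h0
          apply hi
          rw [h0]
          simp
        have hvi : v i ≠ 0 := by
          intro h0
          apply hi
          rw [h0]
          simp
        refine ⟨0, ?_, by rw [mul_zero]⟩
        rw [zero_pow (X.hm k).ne']
        symm
        apply Finset.prod_eq_zero (Finset.mem_univ i)
        rw [hxb i hvi, zero_pow hei]
    choose yb hyb1 hyb2 using hyb
    exact hz1 (hfree (xb, yb) ⟨hxb0, hyb1⟩ z hzd hyb2)
  obtain ⟨a', ha'⟩ := hda
  refine ⟨⟨xb, hxb0, hxb⟩, ?_⟩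
  intro k
  have h7 : (∑ i, (X.e k i : ℤ) * (v i : ℤ)) =
      (X.m k : ℤ) * (P.ord (y k) - a' * (X.w k : ℤ)) := by
    have hk := key k
    apply mul_left_cancel₀ hd0
    rw [hk, ha']
    ring
  have h8 : (X.m k : ℤ) ∣ ((∑ i, X.e k i * v i : ℕ) : ℤ) := by
    push_cast
    exact ⟨_, h7⟩
  exact_mod_cast h8

/-- A field with a one-parameter group is ruled (the proof is a part of
`Pool.Agent.W209.CG.NGT.main`). -/
theorem ruled_of_orbit {K : Type} [Field K] [Algebra ℂ K] (s : ℕ) (ρ : Fin s → K)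
    (β : Fin s → ℤ) (φ : K →ₐ[ℂ] RatFunc K) (hρ0 : ∀ j, ρ j ≠ 0)
    (hgen : IntermediateField.adjoin ℂ (Set.range ρ) = ⊤) (hβ0 : ∃ j, β j ≠ 0)
    (hρφ : ∀ j, φ (ρ j) = RatFunc.X ^ β j * algebraMap K (RatFunc K) (ρ j)) : Ruled ℂ K := by
  classical
  obtain ⟨g, b', c, hg, hβ, hc⟩ := Pool.Agent.W209.CG.NGT.exists_weights β hβ0
  have hX : (RatFunc.X : RatFunc K) ≠ 0 := RatFunc.X_ne_zero
  set σ : K := ∏ j, ρ j ^ c j with hσdef
  have hσ0 : σ ≠ 0 := Finset.prod_ne_zero_iff.2 fun j _ => zpow_ne_zero _ (hρ0 j)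
  have hσφ : φ σ = RatFunc.X ^ g * algebraMap K (RatFunc K) σ := by
    have h1 : g = ∑ j, c j * β j := by
      have h2 : ∑ j, c j * β j = g * ∑ j, c j * b' j := by
        rw [Finset.mul_sum]
        exact Finset.sum_congr rfl fun j _ => by rw [hβ j]; ring
      rw [h2, hc, mul_one]
    have h2 : (RatFunc.X : RatFunc K) ^ (∑ j, c j * β j) = ∏ j, (RatFunc.X ^ β j) ^ c j := by
      have h4 : ∀ S : Finset (Fin s), (RatFunc.X : RatFunc K) ^ (∑ j ∈ S, c j * β j) =
          ∏ j ∈ S, ((RatFunc.X : RatFunc K) ^ β j) ^ c j := by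
        intro S
        induction S using Finset.induction_on with
        | empty => simp
        | insert a S ha ih =>
          rw [Finset.sum_insert ha, Finset.prod_insert ha, zpow_add₀ hX, ih,
            mul_comm (c a), zpow_mul]
      exact h4 _
    rw [h1, h2, hσdef, map_prod, map_prod, ← Finset.prod_mul_distrib]
    refine Finset.prod_congr rfl fun j _ => ?_
    rw [map_zpow₀, hρφ, map_zpow₀, mul_zpow]
  let z : Fin s → K := fun j => ρ j * σ ^ (- b' j)
  have hrz : ∀ j, ρ j = z j * σ ^ (b' j) := by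
    intro j
    simp only [z]
    rw [mul_assoc, ← zpow_add₀ hσ0]
    simp
  have hzφ : ∀ j, φ (z j) = algebraMap K (RatFunc K) (z j) := by
    intro j
    simp only [z]
    rw [map_mul, map_zpow₀, hρφ, hσφ, map_mul, map_zpow₀, mul_zpow, ← zpow_mul, hβ j]
    have h1 : (RatFunc.X : RatFunc K) ^ (g * b' j) * RatFunc.X ^ (g * -b' j) = 1 := by
      rw [← zpow_add₀ hX]
      have : g * b' j + g * -b' j = 0 := by ring
      rw [this, zpow_zero]
    linear_combination (algebraMap K (RatFunc K) (ρ j) *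
      algebraMap K (RatFunc K) σ ^ (-b' j)) * h1
  set E : IntermediateField ℂ K := IntermediateField.adjoin ℂ (Set.range z) with hE
  have hEφ : ∀ x ∈ E, φ x = algebraMap K (RatFunc K) x := by
    intro x hx
    induction hx using IntermediateField.adjoin_induction with
    | mem x hx =>
      obtain ⟨j, rfl⟩ := hx
      exact hzφ j
    | algebraMap c =>
      rw [φ.commutes]
      exact IsScalarTower.algebraMap_apply ℂ K (RatFunc K) c
    | add x y _ _ hx hy => rw [map_add, map_add, hx, hy]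
    | inv x _ hx => rw [map_inv₀, map_inv₀, hx]
    | mul x y _ _ hx hy => rw [map_mul, map_mul, hx, hy]
  have hσt : Transcendental E σ := by
    intro halg
    let φ' : K →ₐ[E] RatFunc K := { φ with
      commutes' := fun e => by
        change φ (e : K) = _
        rw [hEφ _ e.2]
        rfl }
    have h1 : IsAlgebraic E (φ' σ) := halg.algHom φ'
    have h2 : IsAlgebraic K (φ' σ) := h1.tower_top K
    have h3 : φ' σ = RatFunc.X ^ g * algebraMap K (RatFunc K) σ := hσφ
    rw [h3] at h2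
    have h4 : IsAlgebraic K ((RatFunc.X : RatFunc K) ^ g) := by
      have h5 := h2.mul (isAlgebraic_algebraMap (A := RatFunc K) (σ⁻¹ : K))
      have h6 : (RatFunc.X : RatFunc K) ^ g * algebraMap K (RatFunc K) σ *
          algebraMap K (RatFunc K) σ⁻¹ = RatFunc.X ^ g := by
        rw [mul_assoc, ← map_mul, mul_inv_cancel₀ hσ0, map_one, mul_one]
      rwa [h6] at h5
    have h5 : IsAlgebraic K ((RatFunc.X : RatFunc K) ^ g.natAbs) := by
      rcases Int.natAbs_eq g with h | h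
      · rw [h, zpow_natCast] at h4
        exact h4
      · rw [h, zpow_neg, zpow_natCast] at h4
        have := h4.inv
        rwa [inv_inv] at this
    have h6 : IsAlgebraic K (RatFunc.X : RatFunc K) :=
      h5.of_pow (Int.natAbs_pos.2 hg)
    exact RatFunc.transcendental_X h6
  refine ⟨E, σ, hσt, ?_⟩
  have hmemtop : ∀ L : IntermediateField ℂ K, (∀ j, ρ j ∈ L) → L = ⊤ := by
    intro L hL
    rw [eq_top_iff, ← hgen, IntermediateField.adjoin_le_iff]
    rintro _ ⟨j, rfl⟩
    exact hL j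
  have h1 := hmemtop (E⟮σ⟯.restrictScalars ℂ) (fun j => by
    rw [hrz]
    have h1 : z j ∈ E⟮σ⟯ := (E⟮σ⟯).algebraMap_mem
      (⟨z j, IntermediateField.subset_adjoin ℂ _ ⟨j, rfl⟩⟩ : E)
    exact mul_mem h1 (zpow_mem (IntermediateField.mem_adjoin_simple_self E σ) _))
  rw [eq_top_iff]
  intro x _
  have h2 : x ∈ (E⟮σ⟯.restrictScalars ℂ) := by
    rw [h1]; exact IntermediateField.mem_top
  exact h2

variable (X : Cover n q r) {K : Type} [Field K] [Algebra ℂ K] {x : Fin (n + 1) → K}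
  {y : Fin r → K}

/-- covers of a reducible arrangement are ruled -/
theorem ruled (hF : X.Free) (hK : X.FunctionField K x y) (h : Reducible X.ℓ) : Ruled ℂ K := by
  obtain ⟨s, ρ, β, φ, h1, h2, h3, h4⟩ := h_orb n q r X hF h K x y hK
  exact ruled_of_orbit s ρ β φ h1 h2 h3 h4

theorem coords (hK : X.FunctionField K x y) :
    (∀ i, lf (X.ℓ i) x ≠ 0) ∧ x 0 ≠ 0 ∧
      IsTranscendenceBasis ℂ (fun j : Fin n => x j.succ / x 0) := by
  obtain ⟨h1, -, h3, h4⟩ := Pool.Agent.W352.CG.TRA.main n q r X K x y hK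
  have h5 := Pool.Agent.W216.CG.TRB.main Pool.Agent.W337.CG.main n q r X K x y hK h4 h3
  exact ⟨fun i => h1 _ (X.hℓ i), h3, h5⟩

/-- a ruled field has no pseudo-effective canonical bundle -/
theorem not_psef_of_ruled (htr : Algebra.trdeg ℂ K = n) (h : Ruled ℂ K) :
    ¬ Psef ℂ K n (fun _ => False) := by
  obtain ⟨C, σ, h1, h2⟩ := h
  exact not_psef_of htr C h1 h2

end Pool.Agent.TH152.AC
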