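import Pool.Agent.TH152.AC.Comb

/-!
Weights on the bases of an arrangement which is not reducible: the slack `1 / (n + 2)`.
-/

set_option autoImplicit false

open Pool.Agent.W602.Cov Module

namespace Pool.Agent.TH152.AC

variable {n q : ℕ}

/-- The bases of an arrangement. -/
abbrev Bases (ℓ : Fin q → Form n) : Type :=
  {B : Fin (n + 1) → Fin q // LinearIndependent ℂ fun a => ℓ (B a)}

noncomputable instance instFintypeBases (ℓ : Fin q → Form n) : Fintype (Bases ℓ) :=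
  Fintype.ofFinite _

variable {ℓ : Fin q → Form n}

theorem finrank_form (n : ℕ) : finrank ℂ (Form n) = n + 1 := by
  have : finrank ℂ (Form n) = finrank ℂ (Fin (n + 1) → ℂ) := Subspace.dual_finrank_eq
  rw [this, Module.finrank_fintype_fun_eq_card, Fintype.card_fin]

/-- the basis of the space of forms -/
noncomputable def bas (B : Bases ℓ) : Basis (Fin (n + 1)) ℂ (Form n) :=
  basisOfLinearIndependentOfCardEqFinrank B.2 (by rw [finrank_form, Fintype.card_fin])

theorem bas_apply (B : Bases ℓ) (a : Fin (n + 1)) : bas B a = ℓ (B.1 a) := by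
  simp only [bas, coe_basisOfLinearIndependentOfCardEqFinrank]

theorem exists_bases (hspan : Submodule.span ℂ (Set.range ℓ) = ⊤) : Nonempty (Bases ℓ) := by
  have hfr : finrank ℂ (Submodule.span ℂ (Set.range ℓ)) = n + 1 := by
    rw [hspan, finrank_top, finrank_form]
  obtain ⟨f, hf1, hf2, hf3⟩ := Submodule.exists_fun_fin_finrank_span_eq ℂ (Set.range ℓ)
  choose g hg using hf1
  refine ⟨⟨fun a => g (Fin.cast hfr.symm a), ?_⟩⟩
  have h1 : (fun a => ℓ (g (Fin.cast hfr.symm a))) = f ∘ (Fin.cast hfr.symm) := by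
    funext a; simp [hg]
  rw [h1]
  exact hf3.comp _ (Fin.cast_injective _)

theorem update_bases (B : Bases ℓ) {a : Fin (n + 1)} {f : Fin q}
    (h : (bas B).repr (ℓ f) a ≠ 0) :
    LinearIndependent ℂ (fun a' => ℓ (Function.update B.1 a f a')) := by
  have h1 := Pool.Agent.W392.CG.update_indep (bas B) (ℓ f) a h
  have h2 : (fun a' => ℓ (Function.update B.1 a f a')) =
      Function.update (fun a' => bas B a') a (ℓ f) := by
    funext a'
    by_cases ha : a' = a
    · subst ha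
      rw [Function.update_self, Function.update_self]
    · rw [Function.update_of_ne ha, Function.update_of_ne ha, bas_apply]
  rw [h2]
  exact h1

theorem sum_update {M : Type*} [AddCommMonoid M] (v : Fin q → M) (B : Fin (n + 1) → Fin q)
    (a : Fin (n + 1)) (f : Fin q) :
    ∑ k, v (Function.update B a f k) = v f + ∑ k ∈ Finset.univ.erase a, v (B k) := by
  rw [← Finset.add_sum_erase _ _ (Finset.mem_univ a), Function.update_self]
  congr 1
  refine Finset.sum_congr rfl (fun k hk => ?_)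
  rw [Function.update_of_ne (Finset.ne_of_mem_erase hk)]

/-- the number of elements of a basis in a set of hyperplanes -/
def cnt (B : Fin (n + 1) → Fin q) (F : Finset (Fin q)) : ℕ :=
  (Finset.univ.filter fun a => B a ∈ F).card

theorem cnt_eq_sum (B : Fin (n + 1) → Fin q) (F : Finset (Fin q)) :
    ((cnt B F : ℕ) : ℚ) = ∑ a, (if B a ∈ F then 1 else 0) := by
  unfold cnt
  rw [Finset.card_filter]
  push_cast
  rfl

/-- the dimension of the span of a set of hyperplanes -/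
noncomputable def rk (ℓ : Fin q → Form n) (F : Finset (Fin q)) : ℕ :=
  finrank ℂ (Submodule.span ℂ (ℓ '' (F : Set (Fin q))))

theorem cnt_le_rk (B : Bases ℓ) (F : Finset (Fin q)) : cnt B.1 F ≤ rk ℓ F := by
  have h1 := finrank_part (ℓ := ℓ) (b := bas B) (B := B.1) (bas_apply B) F
  unfold cnt rk
  rw [← h1]
  apply Submodule.finrank_mono
  rw [Submodule.span_le]
  rintro _ ⟨a, ha, rfl⟩
  rw [bas_apply]
  exact Submodule.subset_span ⟨B.1 a, ha, rfl⟩

/-- the payoff -/
noncomputable def pay (ℓ : Fin q → Form n) (B : Bases ℓ) (F : {F // Proper ℓ F}) : ℤ :=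
  ((n : ℤ) + 2) * (rk ℓ F.1 - cnt B.1 F.1) - 1

noncomputable instance instFintypeProper (ℓ : Fin q → Form n) : Fintype {F // Proper ℓ F} :=
  Fintype.ofFinite _

theorem dual (hn : 1 ≤ n) (hℓ : ∀ i, ℓ i ≠ 0) (hr : ¬ Reducible ℓ)
    (y : {F // Proper ℓ F} → ℚ) (hy : ∀ F, 0 ≤ y F) :
    ∃ B : Bases ℓ, 0 ≤ ∑ F, y F * (pay ℓ B F : ℚ) := by
  classical
  obtain ⟨B1⟩ := exists_bases (Pool.Agent.W392.CG.span_top hn ℓ hr)
  let w : Fin q → ℚ := fun i => ∑ F : {F // Proper ℓ F}, y F * (if i ∈ F.1 then 1 else 0)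
  obtain ⟨B, -, hB⟩ := Finset.exists_min_image (Finset.univ : Finset (Bases ℓ))
    (fun B => ∑ a, w (B.1 a)) ⟨B1, Finset.mem_univ _⟩
  refine ⟨B, ?_⟩
  obtain ⟨T, hT1, hT2⟩ := exchange (ℓ := ℓ) (b := bas B) (B := B.1) (bas_apply B) hℓ hr
  -- minimality
  have hmin : ∀ p ∈ T, w (B.1 p.1) ≤ w p.2 := by
    intro p hp
    have h1 := hB ⟨_, update_bases B (hT1 p hp)⟩ (Finset.mem_univ _)
    rw [sum_update] at h1
    rw [← Finset.add_sum_erase Finset.univ (fun a => w (B.1 a)) (Finset.mem_univ p.1)] at h1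
    linarith
  have hsum : ∑ p ∈ T, (w (B.1 p.1) - w p.2) ≤ 0 :=
    Finset.sum_nonpos fun p hp => by linarith [hmin p hp]
  have heq : ∑ p ∈ T, (w (B.1 p.1) - w p.2) = ∑ F : {F // Proper ℓ F}, y F *
      ((∑ p ∈ T, ((if B.1 p.1 ∈ F.1 then 1 else 0) - (if p.2 ∈ F.1 then 1 else 0)) : ℤ) : ℚ) := by
    simp only [w]
    simp_rw [← Finset.sum_sub_distrib, ← mul_sub]
    rw [Finset.sum_comm]
    refine Finset.sum_congr rfl fun F _ => ?_
    rw [← Finset.mul_sum]
    push_cast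
    rfl
  rw [heq] at hsum
  have hle : ∀ F : {F // Proper ℓ F}, - (y F * (pay ℓ B F : ℚ)) ≤ y F *
      ((∑ p ∈ T, ((if B.1 p.1 ∈ F.1 then 1 else 0) - (if p.2 ∈ F.1 then 1 else 0)) : ℤ) : ℚ) := by
    intro F
    rw [← mul_neg]
    refine mul_le_mul_of_nonneg_left ?_ (hy F)
    have h1 := hT2 F.1 F.2
    have h2 : -pay ℓ B F ≤ ∑ p ∈ T, ((if B.1 p.1 ∈ F.1 then 1 else 0) -
        (if p.2 ∈ F.1 then 1 else 0)) := by
      refine le_trans (le_of_eq ?_) h1
      unfold pay rk cnt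
      ring
    exact_mod_cast h2
  have h3 : ∑ F : {F // Proper ℓ F}, - (y F * (pay ℓ B F : ℚ)) ≤ 0 :=
    le_trans (Finset.sum_le_sum fun F _ => hle F) hsum
  rw [Finset.sum_neg_distrib] at h3
  linarith

/-- **The sharp slack.** There are weights `p` on the bases such that on average the bases miss
each proper set of hyperplanes at least `1 / (n + 2)` times. -/
theorem weights (hn : 1 ≤ n) (hℓ : ∀ i, ℓ i ≠ 0) (hr : ¬ Reducible ℓ) :
    ∃ p : Bases ℓ → ℕ, 0 < ∑ B, p B ∧ ∀ F : Finset (Fin q), Proper ℓ F →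
      (n + 2) * (∑ B, p B * cnt B.1 F) + ∑ B, p B ≤ (n + 2) * ((∑ B, p B) * rk ℓ F) := by
  classical
  obtain ⟨p, hp1, hp2⟩ := game (pay ℓ) (dual hn hℓ hr)
  refine ⟨p, hp1, fun F hF => ?_⟩
  have h1 := hp2 ⟨F, hF⟩
  have h2 : ∑ B, (p B : ℤ) * pay ℓ B ⟨F, hF⟩ = ((n : ℤ) + 2) * ((∑ B, (p B : ℤ)) * rk ℓ F) -
      (((n : ℤ) + 2) * (∑ B, (p B : ℤ) * cnt B.1 F) + ∑ B, (p B : ℤ)) := by
    unfold pay
    rw [Finset.sum_mul, Finset.mul_sum, Finset.mul_sum, ← Finset.sum_add_distrib,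
      ← Finset.sum_sub_distrib]
    refine Finset.sum_congr rfl fun B _ => ?_
    ring
  rw [h2] at h1
  have h3 : ((n : ℤ) + 2) * (∑ B, (p B : ℤ) * cnt B.1 F) + ∑ B, (p B : ℤ) ≤
      ((n : ℤ) + 2) * ((∑ B, (p B : ℤ)) * rk ℓ F) := by linarith
  exact_mod_cast h3

theorem layer (v T0 : ℕ) (h : v ≤ T0) : v = ∑ t ∈ Finset.Icc 1 T0, (if t ≤ v then 1 else 0) := by
  rw [Finset.sum_ite, Finset.sum_const_zero, add_zero, Finset.sum_const, smul_eq_mul, mul_one]
  have : (Finset.Icc 1 T0).filter (fun t => t ≤ v) = Finset.Icc 1 v := by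
    ext t
    simp only [Finset.mem_filter, Finset.mem_Icc]
    omega
  rw [this, Nat.card_Icc]
  omega

/-- a basis of maximal weight fills the level sets -/
theorem fill (v : Fin q → ℕ) (B : Bases ℓ)
    (hmax : ∀ B' : Bases ℓ, ∑ a, v (B'.1 a) ≤ ∑ a, v (B.1 a)) (t : ℕ) :
    rk ℓ (Finset.univ.filter fun i => t ≤ v i) ≤ cnt B.1 (Finset.univ.filter fun i => t ≤ v i) := by
  classical
  set F : Finset (Fin q) := Finset.univ.filter fun i => t ≤ v i with hF
  have hmem : ∀ i, i ∈ F ↔ t ≤ v i := by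
    intro i
    rw [hF, Finset.mem_filter]
    simp
  unfold rk cnt
  rw [← finrank_part (ℓ := ℓ) (b := bas B) (B := B.1) (bas_apply B) F]
  apply Submodule.finrank_mono
  rw [Submodule.span_le]
  rintro _ ⟨i, hi, rfl⟩
  have hi' : t ≤ v i := (hmem i).1 hi
  rw [SetLike.mem_coe, (bas B).mem_span_image]
  intro a ha
  have ha' : (bas B).repr (ℓ i) a ≠ 0 := Finsupp.mem_support_iff.1 ha
  by_contra hcon
  have hlt : v (B.1 a) < t := by
    by_contra h
    push Not at h
    exact hcon ((hmem _).2 h)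
  have h1 := hmax ⟨_, update_bases B ha'⟩
  rw [sum_update] at h1
  rw [← Finset.add_sum_erase Finset.univ (fun a => v (B.1 a)) (Finset.mem_univ a)] at h1
  omega

/-- **The inequality for the orders.** -/
theorem orders (p : Bases ℓ → ℕ) (hp : ∀ F : Finset (Fin q), Proper ℓ F →
      (n + 2) * (∑ B, p B * cnt B.1 F) + ∑ B, p B ≤ (n + 2) * ((∑ B, p B) * rk ℓ F))
    (hne : Nonempty (Bases ℓ)) (v : Fin q → ℕ)
    (hv : Submodule.span ℂ (ℓ '' {i | v i ≠ 0}) ≠ ⊤) :
    ∃ B' : Bases ℓ, ∀ i, (n + 2) * (∑ B, p B * ∑ a, v (B.1 a)) + (∑ B, p B) * v i ≤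
      (n + 2) * ((∑ B, p B) * ∑ a, v (B'.1 a)) := by
  classical
  obtain ⟨B1⟩ := hne
  obtain ⟨B', -, hmax⟩ := Finset.exists_max_image (Finset.univ : Finset (Bases ℓ))
    (fun B => ∑ a, v (B.1 a)) ⟨B1, Finset.mem_univ _⟩
  refine ⟨B', fun i0 => ?_⟩
  obtain ⟨T0, hT0⟩ : ∃ T0 : ℕ, ∀ i, v i ≤ T0 :=
    ⟨∑ i, v i, fun i => Finset.single_le_sum (f := v) (fun _ _ => Nat.zero_le _)
      (Finset.mem_univ i)⟩
  set N := ∑ B, p B with hN
  let F : ℕ → Finset (Fin q) := fun t => Finset.univ.filter fun i => t ≤ v i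
  have hFmem : ∀ t i, i ∈ F t ↔ t ≤ v i := by
    intro t i
    simp [F]
  have hclaim : ∀ t ∈ Finset.Icc 1 T0,
      (n + 2) * (∑ B, p B * cnt B.1 (F t)) + N * (if t ≤ v i0 then 1 else 0) ≤
        (n + 2) * (N * cnt B'.1 (F t)) := by
    intro t ht
    have ht1 : 1 ≤ t := (Finset.mem_Icc.mp ht).1
    have hfill : rk ℓ (F t) ≤ cnt B'.1 (F t) := fill v B' (fun B => hmax B (Finset.mem_univ _)) t
    by_cases hti : t ≤ v i0
    · rw [if_pos hti, mul_one]
      have hprop : Proper ℓ (F t) := by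
        refine ⟨⟨i0, (hFmem t i0).2 hti⟩, fun htop => hv ?_⟩
        rw [eq_top_iff, ← htop]
        apply Submodule.span_mono
        apply Set.image_mono
        intro i hi
        have hi' : t ≤ v i := (hFmem t i).1 hi
        show v i ≠ 0
        omega
      refine (hp (F t) hprop).trans ?_
      exact Nat.mul_le_mul_left _ (Nat.mul_le_mul_left _ hfill)
    · rw [if_neg hti, mul_zero, add_zero]
      refine Nat.mul_le_mul_left _ ?_
      rw [hN, Finset.sum_mul]
      refine Finset.sum_le_sum fun B _ => Nat.mul_le_mul_left _ ((cnt_le_rk B _).trans hfill)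
  have hsum := Finset.sum_le_sum hclaim
  have hlay : ∀ B : Bases ℓ, ∑ t ∈ Finset.Icc 1 T0, cnt B.1 (F t) = ∑ a, v (B.1 a) := by
    intro B
    have e1 : ∀ t, cnt B.1 (F t) = ∑ a, (if t ≤ v (B.1 a) then 1 else 0) := by
      intro t
      unfold cnt
      rw [Finset.card_filter]
      refine Finset.sum_congr rfl fun a _ => ?_
      simp only [hFmem]
    rw [Finset.sum_congr rfl fun t _ => e1 t, Finset.sum_comm]
    exact Finset.sum_congr rfl fun a _ => (layer (v (B.1 a)) T0 (hT0 _)).symm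
  rw [Finset.sum_add_distrib, ← Finset.mul_sum, ← Finset.mul_sum, ← Finset.mul_sum,
    ← Finset.mul_sum, hlay B', ← layer (v i0) T0 (hT0 i0), Finset.sum_comm] at hsum
  simp_rw [← Finset.mul_sum, hlay] at hsum
  exact hsum

end Pool.Agent.TH152.AC
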