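import Pool.Agent.TH152.AC.Reg
import Pool.Agent.W602.GT.KDefs

/-!
Log general type and nonvanishing for generically finite covers of projective space over an
arrangement which is not reducible.
-/

set_option autoImplicit false

open FF Pool.Agent.W603.LV Pool.Agent.W602.GT Pool.Agent.W602.Cov Pool.Agent.W602.Cov.G
open Pool.Agent.W168.CG.PGR

namespace Pool.Agent.TH152.AC

variable {n q : ℕ} {ℓ : Fin q → Form n} {K : Type} [Field K] [Algebra ℂ K]

/-- If the centre of the place `P` lies on the arrangement then some hyperplane has multiplicity at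
least `m` at `P`. -/
def HighAt (ℓ : Fin q → Form n) (x : Fin (n + 1) → K) (m : ℕ) (P : Place ℂ K) : Prop :=
  ∀ (a : ℤ) (v : Fin q → ℕ), (∀ i, P.ord (lf (ℓ i) x) = a + v i) → v ≠ 0 →
    Submodule.span ℂ (ℓ '' {i | v i ≠ 0}) ≠ ⊤ → ∃ i, m ≤ v i

theorem reg1 (P : Place ℂ K) {D : Fin n → Derivation ℂ K K} (hD : ∀ i, DerReg P (D i)) :
    (∀ f : Fin (n + 1) → K, (∀ j, f j ≠ 0) → Ge P ((∑ j, P.ord (f j)) - (1 : ℕ)) (bw D f)) ∧
    (∀ f : Fin (n + 1) → K, (∀ j, P.Reg (f j)) → P.Reg (bw D f)) :=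
  ⟨fun f hf => by simpa using (bwb n K).1 P D f hD hf, fun f hf => (bwb n K).2.1 P D f hD hf⟩

theorem log0 (P : Place ℂ K) {D : Fin n → Derivation ℂ K K} (hD : ∀ i, DerLog P (D i)) :
    (∀ f : Fin (n + 1) → K, (∀ j, f j ≠ 0) → Ge P ((∑ j, P.ord (f j)) - (0 : ℕ)) (bw D f)) ∧
    (∀ f : Fin (n + 1) → K, (∀ j, P.Reg (f j)) → P.Reg (bw D f)) :=
  ⟨fun f hf => by simpa using bw_ge_log P D f hD hf,
    fun f hf => (bwb n K).2.1 P D f (fun i => reg_of_log (hD i)) hf⟩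

theorem kodGe_zero (hn : 1 ≤ n) (hℓ : ∀ i, ℓ i ≠ 0) (hr : ¬ Reducible ℓ) {x : Fin (n + 1) → K}
    (hlx : ∀ i, lf (ℓ i) x ≠ 0) (hx0 : x 0 ≠ 0)
    (hbas : IsTranscendenceBasis ℂ (fun j : Fin n => x j.succ / x 0)) (Bd : Place ℂ K → Prop)
    (hP : ∀ P : Place ℂ K, Divisorial n P → ¬ Bd P → HighAt ℓ x (n + 2) P) :
    KodGe ℂ K n Bd 0 := by
  have hspan := Pool.Agent.W392.CG.span_top hn ℓ hr
  obtain ⟨B0⟩ := exists_bases hspan
  have i0 : Fin q := B0.1 0
  obtain ⟨p, hp0, hp⟩ := weights hn hℓ hr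
  have hN : (1 : ℤ) ≤ ∑ B, (p B : ℤ) := by exact_mod_cast hp0
  obtain ⟨D, hD⟩ := (bwb n K).2.2 x hx0 hbas
  refine ⟨1 * ∑ B, p B, by omega, fun _ => pf ℓ x p 1, fun _ => ⟨pf_pluri x p 1, ?_, ?_⟩, D, ?_, ?_⟩
  · intro P _ D hD
    obtain ⟨a, v, -, -, c, hc, hc2⟩ := pf_ord' p hp hspan 1 hlx P i0 D 0 (log0 P hD).1 (log0 P hD).2
    refine hc.mono ?_
    rcases hc2 with ⟨-, h⟩ | ⟨-, -, h⟩
    · exact h
    · have h1 := h i0
      push_cast at h1
      have h2 : (0 : ℤ) ≤ (∑ B, (p B : ℤ)) * v i0 := mul_nonneg (by linarith) (by positivity)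
      by_contra hneg
      push Not at hneg
      have h3 : ((n : ℤ) + 2) * c < 0 := mul_neg_of_pos_of_neg (by positivity) hneg
      linarith
  · intro P hPd hPB D hD
    obtain ⟨a, v, hv, -, c, hc, hc2⟩ :=
      pf_ord' p hp hspan 1 hlx P i0 D 1 (reg1 P hD).1 (reg1 P hD).2
    refine hc.mono ?_
    rcases hc2 with ⟨-, h⟩ | ⟨hv0, hsp, h⟩
    · exact h
    · obtain ⟨i, hi⟩ := hP P hPd hPB a v hv hv0 hsp
      have h1 := h i
      push_cast at h1
      have hi' : ((n : ℤ) + 2) ≤ v i := by exact_mod_cast hi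
      have h2 : (∑ B, (p B : ℤ)) * ((n : ℤ) + 2) ≤ (∑ B, (p B : ℤ)) * v i :=
        mul_le_mul_of_nonneg_left hi' (by linarith)
      by_contra hneg
      push Not at hneg
      have h3 : ((n : ℤ) + 2) * c < 0 := mul_neg_of_pos_of_neg (by positivity) hneg
      linarith
  · unfold pf
    exact div_ne_zero (pow_ne_zero _ hD) (den_ne hlx p 1)
  · rw [algebraicIndependent_empty_type_iff]
    exact (algebraMap ℂ K).injective

theorem logGeneral (hn : 1 ≤ n) (hℓ : ∀ i, ℓ i ≠ 0) (hr : ¬ Reducible ℓ) {x : Fin (n + 1) → K}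
    (hlx : ∀ i, lf (ℓ i) x ≠ 0) (hx0 : x 0 ≠ 0)
    (hbas : IsTranscendenceBasis ℂ (fun j : Fin n => x j.succ / x 0)) (Bd : Place ℂ K → Prop)
    (hP : ∀ P : Place ℂ K, Divisorial n P → ¬ Bd P → HighAt ℓ x (n + 3) P) :
    LogGeneralType ℂ K n Bd := by
  have hspan := Pool.Agent.W392.CG.span_top hn ℓ hr
  obtain ⟨B0⟩ := exists_bases hspan
  have i0 : Fin q := B0.1 0
  obtain ⟨p, hp0, hp⟩ := weights hn hℓ hr
  have hN : (1 : ℤ) ≤ ∑ B, (p B : ℤ) := by exact_mod_cast hp0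
  obtain ⟨D, hD⟩ := (bwb n K).2.2 x hx0 hbas
  obtain ⟨t, ht⟩ : ∃ t : ℕ, t = (n + 2) * (n + 3) := ⟨_, rfl⟩
  have htz : (t : ℤ) = ((n : ℤ) + 2) * (n + 3) := by
    rw [ht]
    push_cast
    ring
  have hA : ((n : ℤ) + 2) * (n + 3) ≤ t * ∑ B, (p B : ℤ) := by
    rw [← htz]
    exact le_mul_of_one_le_right (by positivity) hN
  have hpos : (0 : ℤ) < (n : ℤ) + 2 := by positivity
  have hfin : ∀ (P : Place ℂ K) (D : Fin n → Derivation ℂ K K) (a c : ℤ) (v : Fin q → ℕ)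
      (j : Fin (n + 1)), (∀ i, P.ord (lf (ℓ i) x) = a + v i) → (∀ j, Ge P a (x j)) →
      Ge P c (pf ℓ x p t D) → (v i0 : ℤ) ≤ c → P.Reg (pf ℓ x p t D * x j / lf (ℓ i0) x) := by
    intro P D a c v j h1 h2 h3 h4
    have h5 := ge_div (hlx i0) (h3.mul (h2 j))
    rw [h1 i0] at h5
    exact h5.mono (by linarith)
  refine ⟨trdeg_of_basis hbas, t * ∑ B, p B, ?_,
    fun j D => pf ℓ x p t D * x j / lf (ℓ i0) x, ?_, ?_, ?_, D, ?_, ?_⟩
  · rw [ht]
    positivity
  · intro j A D'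
    change pf ℓ x p t _ * x j / lf (ℓ i0) x = _
    rw [pf_pluri x p t A D']
    ring
  · intro P _ j D hD
    obtain ⟨a, v, hv, hxj, c, hc, hc2⟩ :=
      pf_ord' p hp hspan t hlx P i0 D 0 (log0 P hD).1 (log0 P hD).2
    refine hfin P D a c v j hv hxj hc ?_
    rcases hc2 with ⟨hv0, h⟩ | ⟨-, -, h⟩
    · rw [hv0]
      simpa using h
    · have h1 := h i0
      push_cast at h1
      rw [zero_mul, add_zero] at h1
      have h2 : (((n : ℤ) + 2) * (n + 3)) * v i0 ≤ (t * ∑ B, (p B : ℤ)) * v i0 :=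
        mul_le_mul_of_nonneg_right hA (by positivity)
      have h3 : ((n : ℤ) + 2) * v i0 ≤ ((n : ℤ) + 2) * (n + 3) * v i0 := by
        have : (0 : ℤ) ≤ ((n : ℤ) + 2) * (n + 2) * v i0 := by positivity
        nlinarith
      exact le_of_mul_le_mul_left (by linarith) hpos
  · intro P hPd hPB j D hD
    obtain ⟨a, v, hv, hxj, c, hc, hc2⟩ :=
      pf_ord' p hp hspan t hlx P i0 D 1 (reg1 P hD).1 (reg1 P hD).2
    refine hfin P D a c v j hv hxj hc ?_
    rcases hc2 with ⟨hv0, h⟩ | ⟨hv0, hsp, h⟩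
    · rw [hv0]
      simpa using h
    · obtain ⟨i, hi⟩ := hP P hPd hPB a v hv hv0 hsp
      have hi' : ((n : ℤ) + 3) ≤ v i := by exact_mod_cast hi
      set A : ℤ := t * ∑ B, (p B : ℤ) with hAdef
      have h1 : A * v i ≤ (n + 2) * (c + A) := by
        have := h i
        push_cast at this
        rw [one_mul] at this
        exact this
      have h0 : A * v i0 ≤ (n + 2) * (c + A) := by
        have := h i0
        push_cast at this
        rw [one_mul] at this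
        exact this
      have hA0 : 0 < A := lt_of_lt_of_le (by positivity) hA
      refine le_of_mul_le_mul_left ?_ hpos
      rcases le_or_gt ((n : ℤ) + 3) (v i0) with hcase | hcase
      · -- the multiplicity of `i0` is large
        have h2 : (((n : ℤ) + 2) * (n + 3)) * (v i0 - (n + 2)) ≤ A * (v i0 - (n + 2)) :=
          mul_le_mul_of_nonneg_right hA (by linarith)
        have h3 : (0 : ℤ) ≤ ((n : ℤ) + 2) * ((n + 2) * (v i0 - (n + 3))) := by
          apply mul_nonneg (by positivity)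
          exact mul_nonneg (by positivity) (by linarith)
        nlinarith
      · have h2 : A * (n + 3) ≤ A * v i := mul_le_mul_of_nonneg_left hi' hA0.le
        have h3 : ((n : ℤ) + 2) * v i0 ≤ ((n : ℤ) + 2) * (n + 3) :=
          mul_le_mul_of_nonneg_left hcase.le hpos.le
        nlinarith
  · change pf ℓ x p t D * x 0 / lf (ℓ i0) x ≠ 0
    refine div_ne_zero (mul_ne_zero ?_ hx0) (hlx i0)
    unfold pf
    exact div_ne_zero (pow_ne_zero _ hD) (den_ne hlx p t)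
  · have hpf : pf ℓ x p t D ≠ 0 := by
      unfold pf
      exact div_ne_zero (pow_ne_zero _ hD) (den_ne hlx p t)
    have h0 := hlx i0
    have e : (fun i : Fin n => pf ℓ x p t D * x i.succ / lf (ℓ i0) x /
        (pf ℓ x p t D * x 0 / lf (ℓ i0) x)) = fun i : Fin n => x i.succ / x 0 := by
      funext i
      field_simp
    change AlgebraicIndependent ℂ (fun i : Fin n => pf ℓ x p t D * x i.succ / lf (ℓ i0) x /
        (pf ℓ x p t D * x 0 / lf (ℓ i0) x))
    rw [e]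
    exact hbas.1

end Pool.Agent.TH152.AC
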