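import Pool.Agent.TH152.AC.Dual
import Pool.Agent.W168.CG.PGR
import Pool.Agent.W930.CG.BWB
import Pool.Agent.W351.CG.BWA

/-!
The pluricanonical forms given by weights on the bases, and their orders.
-/

set_option autoImplicit false

open FF Pool.Agent.W603.LV Pool.Agent.W602.GT Pool.Agent.W602.Cov Pool.Agent.W602.Cov.G
open Pool.Agent.W168.CG.PGR

namespace Pool.Agent.TH152.AC

variable {n q : ℕ} {ℓ : Fin q → Form n} {K : Type} [Field K] [Algebra ℂ K]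

theorem bwa : S_BWA := Pool.Agent.W351.CG.main

theorem bwb : S_BWB := Pool.Agent.W930.CG.main bwa

/-- a logarithmic derivation is regular -/
theorem reg_of_log {P : Place ℂ K} {D : Derivation ℂ K K} (h : DerLog P D) : DerReg P D := by
  intro f hf
  by_cases hf0 : f = 0
  · rw [hf0, map_zero]
    exact P.reg_zero
  · have h1 : D f = f * (D f / f) := by
      field_simp
    rw [h1]
    exact P.reg_mul hf (h f)

/-- the determinant for logarithmic vector fields -/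
theorem bw_ge_log (P : Place ℂ K) (D : Fin n → Derivation ℂ K K) (f : Fin (n + 1) → K)
    (hD : ∀ i, DerLog P (D i)) (hf : ∀ j, f j ≠ 0) : Ge P (∑ j, P.ord (f j)) (bw D f) := by
  rw [Pool.Agent.W930.CG.bw_log bwa D f hf, ← ord_prod' P Finset.univ f (fun j _ => hf j)]
  have h1 : Ge P 0 (Matrix.of fun i j : Fin n => D i (f j.succ / f 0) / (f j.succ / f 0)).det := by
    refine ge_det P _ 0 (fun _ _ => 0) (fun i j => ?_) (fun σ => by simp)
    exact hD i _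
  have h2 := (Pool.Agent.W602.GT.ge_ord P (∏ j, f j)).mul h1
  rwa [add_zero] at h2

/-- the product of the forms of the bases -/
noncomputable def den (ℓ : Fin q → Form n) (x : Fin (n + 1) → K) (p : Bases ℓ → ℕ) (t : ℕ) : K :=
  ∏ B : Bases ℓ, (∏ a, lf (ℓ (B.1 a)) x) ^ (t * p B)

/-- the pluricanonical form -/
noncomputable def pf (ℓ : Fin q → Form n) (x : Fin (n + 1) → K) (p : Bases ℓ → ℕ) (t : ℕ)
    (D : Fin n → Derivation ℂ K K) : K := bw D x ^ (t * ∑ B, p B) / den ℓ x p t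

theorem den_ne {x : Fin (n + 1) → K} (hx : ∀ i, lf (ℓ i) x ≠ 0) (p : Bases ℓ → ℕ) (t : ℕ) :
    den ℓ x p t ≠ 0 :=
  Finset.prod_ne_zero_iff.2 fun _ _ => pow_ne_zero _ (Finset.prod_ne_zero_iff.2 fun _ _ => hx _)

theorem ord_den (P : Place ℂ K) {x : Fin (n + 1) → K} (hx : ∀ i, lf (ℓ i) x ≠ 0)
    (p : Bases ℓ → ℕ) (t : ℕ) :
    P.ord (den ℓ x p t) = t * ∑ B, (p B : ℤ) * ∑ a, P.ord (lf (ℓ (B.1 a)) x) := by
  unfold den
  rw [ord_prod' P Finset.univ _ fun B _ => pow_ne_zero _ (Finset.prod_ne_zero_iff.2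
    fun _ _ => hx _), Finset.mul_sum]
  refine Finset.sum_congr rfl fun B _ => ?_
  rw [P.ord_pow, ord_prod' P Finset.univ _ fun _ _ => hx _]
  push_cast
  ring

theorem den_scale (x : Fin (n + 1) → K) (p : Bases ℓ → ℕ) (t : ℕ) (lam : K) :
    den ℓ (fun j => lam * x j) p t = lam ^ ((n + 1) * (t * ∑ B, p B)) * den ℓ x p t := by
  unfold den
  rw [Finset.mul_sum, Finset.mul_sum, ← Finset.prod_pow_eq_pow_sum, ← Finset.prod_mul_distrib]
  refine Finset.prod_congr rfl fun B _ => ?_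
  simp only [lf_mul, Finset.prod_mul_distrib, Finset.prod_const, Finset.card_univ,
    Fintype.card_fin]
  rw [mul_pow, ← pow_mul]

theorem pf_scale (x : Fin (n + 1) → K) (p : Bases ℓ → ℕ) (t : ℕ) (D : Fin n → Derivation ℂ K K)
    {lam : K} (hlam : lam ≠ 0) : pf ℓ (fun j => lam * x j) p t D = pf ℓ x p t D := by
  unfold pf
  rw [den_scale, (bwa n K).1 D lam x, mul_pow, ← pow_mul,
    mul_div_mul_left _ _ (pow_ne_zero _ hlam)]

theorem pf_pluri (x : Fin (n + 1) → K) (p : Bases ℓ → ℕ) (t : ℕ) :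
    IsPluri (t * ∑ B, p B) (pf ℓ x p t) := by
  intro A D
  unfold pf
  rw [(bwa n K).2.1 A D x, mul_pow]
  ring

/-- the order of the forms: normalised coordinates -/
theorem pf_ord (p : Bases ℓ → ℕ) (hp : ∀ F : Finset (Fin q), Proper ℓ F →
      (n + 2) * (∑ B, p B * cnt B.1 F) + ∑ B, p B ≤ (n + 2) * ((∑ B, p B) * rk ℓ F))
    (hspan : Submodule.span ℂ (Set.range ℓ) = ⊤) (t : ℕ) {x : Fin (n + 1) → K}
    (hx : ∀ i, lf (ℓ i) x ≠ 0) (P : Place ℂ K) (v : Fin q → ℕ)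
    (hord : ∀ i, P.ord (lf (ℓ i) x) = v i) (i1 : Fin q) (hi1 : v i1 = 0)
    (D : Fin n → Derivation ℂ K K) (e : ℕ)
    (h1 : ∀ f : Fin (n + 1) → K, (∀ j, f j ≠ 0) → Ge P ((∑ j, P.ord (f j)) - e) (bw D f))
    (h2 : ∀ f : Fin (n + 1) → K, (∀ j, P.Reg (f j)) → P.Reg (bw D f)) :
    (∀ j, Ge P 0 (x j)) ∧ ∃ c : ℤ, Ge P c (pf ℓ x p t D) ∧
      ((v = 0 ∧ 0 ≤ c) ∨ (v ≠ 0 ∧ Submodule.span ℂ (ℓ '' {i | v i ≠ 0}) ≠ ⊤ ∧
        ∀ i, (t * (∑ B, p B) * v i : ℤ) ≤ (n + 2) * (c + e * (t * ∑ B, p B)))) := by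
  have hreg : ∀ j, Ge P 0 (x j) := by
    intro j
    have h3 := ge_span P 0 (Set.range ℓ) x (by
      rintro _ ⟨i, rfl⟩
      right
      rw [hord i]
      positivity) (LinearMap.proj j) (by rw [hspan]; trivial)
    rwa [lf_proj] at h3
  refine ⟨hreg, ?_⟩
  have hord' := ord_den P hx p t
  simp only [hord] at hord'
  by_cases hv0 : v = 0
  · have h3 : Ge P 0 (bw D x) := h2 x hreg
    have h4 := ge_div (den_ne hx p t) (h3.pow (t * ∑ B, p B))
    rw [hord', hv0] at h4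
    refine ⟨0, ?_, Or.inl ⟨hv0, le_rfl⟩⟩
    simpa [pf] using h4
  · -- the support does not span
    have hsp : Submodule.span ℂ (ℓ '' {i | v i ≠ 0}) ≠ ⊤ := by
      intro htop
      have h3 := ge_span P 1 (ℓ '' {i | v i ≠ 0}) x (by
        rintro _ ⟨i, hi, rfl⟩
        right
        rw [hord i]
        have : v i ≠ 0 := hi
        omega) (ℓ i1) (by rw [htop]; trivial)
      rcases h3 with h3 | h3
      · exact hx i1 h3
      · rw [hord i1, hi1] at h3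
        norm_num at h3
    obtain ⟨B', hB'⟩ := orders p hp (exists_bases hspan) v hsp
    -- the order of the determinant
    have hbw : Ge P ((∑ a, (v (B'.1 a) : ℤ)) - e) (bw D x) := by
      obtain ⟨c, hc⟩ : ∃ c : Matrix (Fin (n + 1)) (Fin (n + 1)) ℂ,
        c = Matrix.of fun a j : Fin (n + 1) => ℓ (B'.1 a) (Pi.single j 1) := ⟨_, rfl⟩
      have hdet : c.det ≠ 0 := by
        rw [hc]
        exact det_ne_zero (m := fun a => ℓ (B'.1 a)) B'.2
      have e1 : bw D (fun a => lf (ℓ (B'.1 a)) x) = algebraMap ℂ K c.det * bw D x := by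
        rw [← (bwa n K).2.2 c D x, hc]
        rfl
      have h3 := h1 (fun a => lf (ℓ (B'.1 a)) x) (fun a => hx (B'.1 a))
      rw [e1] at h3
      simp only [hord] at h3
      have h4 := (Ge.const (P := P) (c.det)⁻¹).mul h3
      rw [← mul_assoc, ← map_mul, inv_mul_cancel₀ hdet, map_one, one_mul, zero_add] at h4
      exact h4
    have h5 := ge_div (den_ne hx p t) (hbw.pow (t * ∑ B, p B))
    rw [hord'] at h5
    refine ⟨_, h5, Or.inr ⟨hv0, hsp, fun i => ?_⟩⟩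
    have h6 : ((n : ℤ) + 2) * (∑ B, (p B : ℤ) * ∑ a, (v (B.1 a) : ℤ)) +
        (∑ B, (p B : ℤ)) * v i ≤ (n + 2) * ((∑ B, (p B : ℤ)) * ∑ a, (v (B'.1 a) : ℤ)) := by
      exact_mod_cast hB' i
    have h7 := mul_le_mul_of_nonneg_left h6 (by positivity : (0 : ℤ) ≤ t)
    push_cast
    nlinarith [h7]

/-- the general case: the orders `a + v i` -/
theorem pf_ord' (p : Bases ℓ → ℕ) (hp : ∀ F : Finset (Fin q), Proper ℓ F →
      (n + 2) * (∑ B, p B * cnt B.1 F) + ∑ B, p B ≤ (n + 2) * ((∑ B, p B) * rk ℓ F))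
    (hspan : Submodule.span ℂ (Set.range ℓ) = ⊤) (t : ℕ) {x : Fin (n + 1) → K}
    (hx : ∀ i, lf (ℓ i) x ≠ 0) (P : Place ℂ K) (i0 : Fin q)
    (D : Fin n → Derivation ℂ K K) (e : ℕ)
    (h1 : ∀ f : Fin (n + 1) → K, (∀ j, f j ≠ 0) → Ge P ((∑ j, P.ord (f j)) - e) (bw D f))
    (h2 : ∀ f : Fin (n + 1) → K, (∀ j, P.Reg (f j)) → P.Reg (bw D f)) :
    ∃ (a : ℤ) (v : Fin q → ℕ), (∀ i, P.ord (lf (ℓ i) x) = a + v i) ∧ (∀ j, Ge P a (x j)) ∧
      ∃ c : ℤ, Ge P c (pf ℓ x p t D) ∧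
      ((v = 0 ∧ 0 ≤ c) ∨ (v ≠ 0 ∧ Submodule.span ℂ (ℓ '' {i | v i ≠ 0}) ≠ ⊤ ∧
        ∀ i, (t * (∑ B, p B) * v i : ℤ) ≤ (n + 2) * (c + e * (t * ∑ B, p B)))) := by
  obtain ⟨i1, -, hmin⟩ := Finset.exists_min_image Finset.univ (fun i => P.ord (lf (ℓ i) x))
    ⟨i0, Finset.mem_univ _⟩
  obtain ⟨a, ha⟩ : ∃ a, a = P.ord (lf (ℓ i1) x) := ⟨_, rfl⟩
  let v : Fin q → ℕ := fun i => (P.ord (lf (ℓ i) x) - a).toNat
  have hvi : ∀ i, P.ord (lf (ℓ i) x) = a + v i := by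
    intro i
    have h3 := hmin i (Finset.mem_univ i)
    have h4 : (v i : ℤ) = P.ord (lf (ℓ i) x) - a := by
      show (((P.ord (lf (ℓ i) x) - a).toNat : ℕ) : ℤ) = _
      rw [Int.toNat_of_nonneg]
      rw [ha]
      linarith
    rw [h4]
    ring
  have hi1 : v i1 = 0 := by
    have := hvi i1
    omega
  obtain ⟨π, hπ0, hπ⟩ := P.surj
  have hlam : π ^ (-a) ≠ 0 := zpow_ne_zero _ hπ0
  have hordlam : P.ord (π ^ (-a)) = -a := by rw [P.ord_zpow, hπ, mul_one]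
  obtain ⟨h3, c, h4, h5⟩ := pf_ord p hp hspan t (x := fun j => π ^ (-a) * x j) (fun i => by
    rw [lf_mul]
    exact mul_ne_zero hlam (hx i)) P v (fun i => by
    rw [lf_mul, P.ord_mul hlam (hx i), hordlam, hvi i]
    ring) i1 hi1 D e h1 h2
  rw [pf_scale x p t D hlam] at h4
  refine ⟨a, v, hvi, fun j => ?_, c, h4, h5⟩
  have h6 := Ge.of_mul hlam (h3 j)
  rw [hordlam] at h6
  simpa using h6

end Pool.Agent.TH152.AC
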